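import Mathlib
import Pool.Agent.Q110.Lind.TrN

/-!
# MP_4e5d1f_mp: jump operators generating the full matrix algebra give Hamiltonian-independently
contractive dynamics, with constants uniform in the drive
-/

set_option autoImplicit false

open Matrix MeasureTheory Filter Topology
open scoped ComplexOrder

namespace Pool.Agent.Results.MP_4e5d1f_mp.HamiltonianIndependent

open Pool.Agent.Q110.Lind

variable {d m : ℕ}

/-- `E t s` is the propagator from time `s` to time `t` of the driven Lindbladian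
`lind L (H t)`: for every initial matrix it is continuous in `t ≥ s` and satisfies the integrated
form of `∂ₜ E = (lind L (H t)) ∘ E`, `E s s = id`. -/
structure IsPropagator (L : Fin m → Mat d) (H : ℝ → Mat d)
    (E : ℝ → ℝ → (Mat d →ₗ[ℂ] Mat d)) : Prop where
  cont : ∀ s, 0 ≤ s → ∀ X, ContinuousOn (fun t => E t s X) (Set.Ici s)
  eq : ∀ s, 0 ≤ s → ∀ X, ∀ t, s ≤ t → ∀ a b,
    (E t s X) a b = X a b + ∫ τ in s..t, (lind L (H τ) (E τ s X)) a b

/-- density matrices -/
def IsDensity (ρ : Mat d) : Prop := ρ.PosSemidef ∧ ρ.trace = 1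

section

variable {L : Fin m → Mat d} {H : ℝ → Mat d} {E : ℝ → ℝ → (Mat d →ₗ[ℂ] Mat d)}

theorem prop_self (hE : IsPropagator L H E) {s : ℝ} (hs : 0 ≤ s) (X : Mat d) : E s s X = X := by
  ext a b
  rw [hE.eq s hs X s le_rfl a b, intervalIntegral.integral_same, add_zero]

theorem prop_traj (hE : IsPropagator L H E) {s : ℝ} (hs : 0 ≤ s) (X : Mat d) :
    Traj L H s (fun τ => E (max τ s) s X) := by
  refine ⟨?_, ?_⟩
  · exact (hE.cont s hs X).comp_continuous (continuous_id.max continuous_const)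
      (fun τ => Set.mem_Ici.2 (le_max_right _ _))
  · intro t ht a b
    show (E (max t s) s X) a b = (E (max s s) s X) a b +
      ∫ τ in s..t, (lind L (H τ) (E (max τ s) s X)) a b
    rw [max_eq_left ht, max_self, prop_self hE hs X, hE.eq s hs X t ht a b]
    congr 1
    refine intervalIntegral.integral_congr fun τ hτ => ?_
    rw [Set.uIcc_of_le ht] at hτ
    show (lind L (H τ) (E τ s X)) a b = (lind L (H τ) (E (max τ s) s X)) a b
    rw [max_eq_left hτ.1]

theorem prop_cocycle (hH : Drive H) (hE : IsPropagator L H E) {s r t : ℝ} (hs : 0 ≤ s) (hr : s ≤ r)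
    (ht : r ≤ t) (X : Mat d) : E t s X = E t r (E r s X) := by
  have hx := (prop_traj hE hs X).restart hH hs hr
  have hy := prop_traj hE (hs.trans hr) (E r s X)
  have h1 := traj_zero hH (hs.trans hr) (hx.sub hH (hs.trans hr) hy) (by
    show E (max r s) s X - E (max r r) r (E r s X) = 0
    rw [max_eq_left hr, max_self, prop_self hE (hs.trans hr), sub_self]) ht
  have h2 : E (max t s) s X - E (max t r) r (E r s X) = 0 := h1
  rw [max_eq_left (hr.trans ht), max_eq_left ht] at h2
  exact sub_eq_zero.1 h2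

theorem prop_herm (hH : Drive H) (hE : IsPropagator L H E) {s t : ℝ} (hs : 0 ≤ s) (ht : s ≤ t)
    (X : Mat d) (hX : X.IsHermitian) : (E t s X).IsHermitian := by
  have h1 := traj_herm hH hs (prop_traj hE hs X) (by
    show (E (max s s) s X).IsHermitian
    rw [max_self, prop_self hE hs]; exact hX) ht
  have h2 : (E (max t s) s X).IsHermitian := h1
  rwa [max_eq_left ht] at h2

theorem prop_trace (hH : Drive H) (hE : IsPropagator L H E) {s t : ℝ} (hs : 0 ≤ s) (ht : s ≤ t)
    (X : Mat d) : pr 1 (E t s X) = pr 1 X := by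
  have h1 := traj_trace hH hs (prop_traj hE hs X) ht
  have h2 : pr 1 (E (max t s) s X) = pr 1 (E (max s s) s X) := h1
  rwa [max_eq_left ht, max_self, prop_self hE hs] at h2

theorem prop_posDef (hH : Drive H) (hE : IsPropagator L H E) {s t : ℝ} (hs : 0 ≤ s) (ht : s ≤ t)
    (X : Mat d) (hX : X.PosDef) : (E t s X).PosDef := by
  have h1 := traj_pos hH hs (prop_traj hE hs X) (by
    show (E (max s s) s X).PosDef
    rw [max_self, prop_self hE hs]; exact hX) ht
  have h2 : (E (max t s) s X).PosDef := h1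
  rwa [max_eq_left ht] at h2

theorem pr_smul_real (c : ℝ) (X : Mat d) : pr 1 ((c : ℂ) • X) = c * pr 1 X := by
  unfold pr
  rw [one_mul, one_mul, Matrix.trace_smul, smul_eq_mul, Complex.re_ofReal_mul]

theorem pr_one_one : pr 1 (1 : Mat d) = d := by
  unfold pr
  rw [one_mul, Matrix.trace_one, Fintype.card_fin, Complex.natCast_re]

theorem qf_one_pos (v : Fin d → ℂ) (hv : v ≠ 0) : 0 < qf 1 v := qf_pos _ Matrix.PosDef.one v hv

/-- from positive definite trace one matrices to all positive semidefinite matrices -/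
theorem prop_lower (hd : 2 ≤ d) {δ s t : ℝ}
    (hpd : ∀ X : Mat d, X.PosDef → pr 1 X = 1 → ∀ v, δ * qf 1 v ≤ qf (E t s X) v)
    (A : Mat d) (hA : A.PosSemidef) (v : Fin d → ℂ) :
    δ * pr 1 A * qf 1 v ≤ qf (E t s A) v := by
  have hd0 : (0 : ℝ) < d := by exact_mod_cast (by omega : 0 < d)
  have htr : 0 ≤ pr 1 A := by
    unfold pr
    rw [one_mul]
    exact (Complex.le_def.1 hA.trace_nonneg).1
  have key : ∀ ε : ℝ, 0 < ε → 0 ≤ qf (E t s A) v + ε * qf (E t s 1) v -
      δ * (pr 1 A + ε * d) * qf 1 v := by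
    intro ε hε
    have hT : 0 < pr 1 A + ε * d := by positivity
    have hpdA : (A + (ε : ℂ) • (1 : Mat d)).PosDef := by
      refine posDef_of_qf _ ?_ fun v hv => ?_
      · refine hA.isHermitian.add ?_
        show ((ε : ℂ) • (1 : Mat d))ᴴ = _
        rw [Matrix.conjTranspose_smul, Matrix.conjTranspose_one, Complex.star_def,
          Complex.conj_ofReal]
      · rw [qf_add, qf_smul]
        have h1 := qf_nonneg A hA v
        have h2 := mul_pos hε (qf_one_pos v hv)
        linarith
    have hpdX : (((pr 1 A + ε * d)⁻¹ : ℝ) : ℂ) • (A + (ε : ℂ) • (1 : Mat d)) |>.PosDef := by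
      refine posDef_of_qf _ ?_ fun v hv => ?_
      · show ((((pr 1 A + ε * d)⁻¹ : ℝ) : ℂ) • (A + (ε : ℂ) • (1 : Mat d)))ᴴ = _
        rw [Matrix.conjTranspose_smul, hpdA.isHermitian.eq, Complex.star_def, Complex.conj_ofReal]
      · rw [qf_smul]
        exact mul_pos (by positivity) (qf_pos _ hpdA v hv)
    have h3 := hpd _ hpdX (by
      rw [pr_smul_real, pr_add, pr_smul_real, pr_one_one, inv_mul_cancel₀ hT.ne']) v
    rw [map_smul, qf_smul, map_add, map_smul, qf_add, qf_smul] at h3
    have h4 := mul_le_mul_of_nonneg_left h3 hT.le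
    rw [← mul_assoc (pr 1 A + ε * d) (pr 1 A + ε * d)⁻¹, mul_inv_cancel₀ hT.ne', one_mul] at h4
    have h5 : (pr 1 A + ε * d) * (δ * qf 1 v) = δ * (pr 1 A + ε * d) * qf 1 v := by ring
    linarith
  have hc : Continuous (fun ε : ℝ => qf (E t s A) v + ε * qf (E t s 1) v -
      δ * (pr 1 A + ε * d) * qf 1 v) := by fun_prop
  have hlim := (hc.tendsto 0).mono_left (nhdsWithin_le_nhds (s := Set.Ioi 0))
  have h6 : 0 ≤ qf (E t s A) v + 0 * qf (E t s 1) v - δ * (pr 1 A + 0 * d) * qf 1 v := by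
    refine ge_of_tendsto hlim ?_
    filter_upwards [self_mem_nhdsWithin] with ε hε
    exact key ε hε
  linarith

theorem prop_contract (hH : Drive H) (hE : IsPropagator L H E) {δ s t : ℝ} (hs : 0 ≤ s)
    (ht : s ≤ t)
    (hlow : ∀ A : Mat d, A.PosSemidef → ∀ v, δ * pr 1 A * qf 1 v ≤ qf (E t s A) v)
    (Z : Mat d) (hZ : Z.IsHermitian) (htr : pr 1 Z = 0) :
    trNorm (E t s Z) ≤ (1 - d * δ) * trNorm Z := by
  obtain ⟨A, B, hA, hB, hZAB, hprA, hprB⟩ := jordan Z hZ htr
  set c : ℝ := δ * (trNorm Z / 2) with hc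
  have hone : ((c : ℂ) • (1 : Mat d)).IsHermitian := by
    show ((c : ℂ) • (1 : Mat d))ᴴ = _
    rw [Matrix.conjTranspose_smul, Matrix.conjTranspose_one, Complex.star_def, Complex.conj_ofReal]
  have hpsd : ∀ X : Mat d, X.PosSemidef → pr 1 X = trNorm Z / 2 →
      (E t s X - (c : ℂ) • (1 : Mat d)).PosSemidef := by
    intro X hX hprX
    refine posSemidef_of_qf _ ((prop_herm hH hE hs ht X hX.isHermitian).sub hone) fun v => ?_
    rw [qf_sub, qf_smul]
    have h1 := hlow X hX v
    rw [hprX, ← hc] at h1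
    linarith
  have h1 : E t s Z = (E t s A - (c : ℂ) • (1 : Mat d)) - (E t s B - (c : ℂ) • (1 : Mat d)) := by
    rw [hZAB, map_sub]; abel
  rw [h1]
  refine (trNorm_sub_le _ _ (hpsd A hA hprA) (hpsd B hB hprB)).trans (le_of_eq ?_)
  rw [pr_sub, pr_sub, prop_trace hH hE hs ht, prop_trace hH hE hs ht, pr_smul_real, pr_one_one,
    hprA, hprB, hc]
  ring

end

/-- Jump operators generating the full matrix algebra: exponential contractivity for every
Hermitian drive, with constants which do not depend on the drive. -/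
theorem result : ∀ (d m : ℕ), 2 ≤ d → ∀ L : Fin m → Mat d,
    Algebra.adjoin ℂ (Set.range L) = ⊤ →
    ∃ K γ : ℝ, 0 < K ∧ 0 < γ ∧
      ∀ H : ℝ → Mat d, Drive H → ∀ E : ℝ → ℝ → (Mat d →ₗ[ℂ] Mat d), IsPropagator L H E →
        ∀ ρ σ : Mat d, IsDensity ρ → IsDensity σ → ∀ s t : ℝ, 0 ≤ s → s ≤ t →
          trNorm (E t s ρ - E t s σ) ≤ K * Real.exp (-γ * (t - s)) * trNorm (ρ - σ) := by
  intro d m hd L hL
  obtain ⟨δ, hδ, hdet⟩ := det_lower L hL hd
  have hd0 : (0 : ℝ) < d := by exact_mod_cast (by omega : 0 < d)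
  set q : ℝ := max (1 - d * δ) (1 / 2) with hq
  have hq0 : 0 < q := lt_of_lt_of_le (by norm_num) (le_max_right _ _)
  have hq1 : q < 1 := max_lt (by have := mul_pos hd0 hδ; linarith) (by norm_num)
  have hγ : 0 < -Real.log q := neg_pos.2 (Real.log_neg hq0 hq1)
  refine ⟨Real.exp (-Real.log q), -Real.log q, Real.exp_pos _, hγ, ?_⟩
  intro H hH E hE ρ σ hρ hσ s t hs hst
  -- one step without decay
  have step0 : ∀ s t : ℝ, 0 ≤ s → s ≤ t → ∀ Z : Mat d, Z.IsHermitian → pr 1 Z = 0 →
      trNorm (E t s Z) ≤ trNorm Z := by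
    intro s t hs ht Z hZ htr
    have h1 := prop_contract hH hE (δ := 0) hs ht (prop_lower hd (fun X hX _ v => by
      rw [zero_mul]
      exact qf_nonneg _ (prop_posDef hH hE hs ht X hX).posSemidef v)) Z hZ htr
    simpa using h1
  -- one step with decay
  have step1 : ∀ s t : ℝ, 0 ≤ s → s + 1 ≤ t → ∀ Z : Mat d, Z.IsHermitian → pr 1 Z = 0 →
      trNorm (E t s Z) ≤ q * trNorm Z := by
    intro s t hs ht Z hZ htr
    have hst : s ≤ t := by linarith
    have h1 := prop_contract hH hE (δ := δ) hs hst (prop_lower hd (fun X hX hX1 v => by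
      have hpd := prop_posDef hH hE hs hst X hX
      refine qf_lower _ hpd.isHermitian δ (fun i => ?_) v
      have htr1 : pr 1 (E t s X) = 1 := (prop_trace hH hE hs hst X).trans hX1
      refine le_trans ?_ (eig_lower _ hpd htr1 i)
      have h2 := hdet H hH s hs _ (prop_traj hE hs X) (by
        show (E (max s s) s X).PosDef
        rw [max_self, prop_self hE hs]; exact hX) (by
        show pr 1 (E (max s s) s X) = 1
        rw [max_self, prop_self hE hs]; exact hX1) t ht
      have h3 : δ ≤ (E (max t s) s X).det.re := h2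
      rwa [max_eq_left hst] at h3)) Z hZ htr
    exact h1.trans (mul_le_mul_of_nonneg_right (le_max_left _ _) (trNorm_nonneg _))
  -- iteration
  have iter : ∀ n : ℕ, ∀ s t : ℝ, 0 ≤ s → s + n ≤ t → ∀ Z : Mat d, Z.IsHermitian → pr 1 Z = 0 →
      trNorm (E t s Z) ≤ q ^ n * trNorm Z := by
    intro n
    induction n with
    | zero =>
      intro s t hs ht Z hZ htr
      rw [pow_zero, one_mul]
      exact step0 s t hs (by simpa using ht) Z hZ htr
    | succ n ih =>
      intro s t hs ht Z hZ htr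
      push_cast at ht
      have hn : (0 : ℝ) ≤ n := Nat.cast_nonneg n
      have hs1 : s ≤ s + 1 := by linarith
      rw [prop_cocycle hH hE hs hs1 (by linarith : s + 1 ≤ t) Z]
      have h1 := ih (s + 1) t (by linarith) (by linarith) (E (s + 1) s Z)
        (prop_herm hH hE hs hs1 Z hZ) ((prop_trace hH hE hs hs1 Z).trans htr)
      refine h1.trans ?_
      rw [pow_succ, mul_assoc]
      exact mul_le_mul_of_nonneg_left (step1 s (s + 1) hs le_rfl Z hZ htr) (by positivity)
  have hZ : (ρ - σ).IsHermitian := hρ.1.isHermitian.sub hσ.1.isHermitian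
  have htr : pr 1 (ρ - σ) = 0 := by
    unfold pr
    rw [one_mul, Matrix.trace_sub, hρ.2, hσ.2, sub_self, Complex.zero_re]
  rw [← map_sub]
  have hfl : (⌊t - s⌋₊ : ℝ) ≤ t - s := Nat.floor_le (by linarith)
  have hfl2 : t - s < ⌊t - s⌋₊ + 1 := Nat.lt_floor_add_one _
  refine (iter ⌊t - s⌋₊ s t hs (by linarith) (ρ - σ) hZ htr).trans ?_
  refine mul_le_mul_of_nonneg_right ?_ (trNorm_nonneg _)
  have h1 : q ^ ⌊t - s⌋₊ = Real.exp (Real.log q * ⌊t - s⌋₊) := by
    rw [mul_comm, Real.exp_nat_mul, Real.exp_log hq0]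
  rw [h1, ← Real.exp_add]
  refine Real.exp_le_exp.2 ?_
  have h2 : -Real.log q * (t - s - 1) ≤ -Real.log q * ⌊t - s⌋₊ :=
    mul_le_mul_of_nonneg_left (by linarith) hγ.le
  linarith

end Pool.Agent.Results.MP_4e5d1f_mp.HamiltonianIndependent
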